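import Mathlib

/-!
# Sets which are locally complements of finitely many open convex sets

`CoConvex F`: near each of its points the set `F` is the complement of a finite union of open convex
sets. If `F` is compact, then a map which is constant on the segments contained in `F` takes only
finitely many values on `F` (`finite_values`), and an affine image of `F` on which a linear functional
is injective is a finite union of segments (`corner_finite`, `segments_of_corner`).
-/

set_option autoImplicit false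

open Set Metric Filter Topology

namespace Run7.h767.CX

section basic

variable {E : Type*} [TopologicalSpace E] [AddCommGroup E] [Module ℝ E]

/-- near each of its points `F` is the complement of a finite union of open convex sets -/
def CoConvex (F : Set E) : Prop :=
  ∀ z ∈ F, ∃ U : Set (Set E), U.Finite ∧ (∀ u ∈ U, IsOpen u ∧ Convex ℝ u) ∧
    ∀ᶠ x in 𝓝 z, (x ∈ F ↔ ∀ u ∈ U, x ∉ u)

theorem CoConvex.compl {u : Set E} (h1 : IsOpen u) (h2 : Convex ℝ u) : CoConvex uᶜ :=
  fun z _ => ⟨{u}, finite_singleton _, by simpa using ⟨h1, h2⟩, by simp⟩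

theorem CoConvex.inter {F G : Set E} (hF : CoConvex F) (hG : CoConvex G) : CoConvex (F ∩ G) := by
  rintro z ⟨hz1, hz2⟩
  obtain ⟨U, hU1, hU2, hU3⟩ := hF z hz1
  obtain ⟨V, hV1, hV2, hV3⟩ := hG z hz2
  refine ⟨U ∪ V, hU1.union hV1, ?_, ?_⟩
  · rintro u (hu | hu)
    · exact hU2 u hu
    · exact hV2 u hu
  · filter_upwards [hU3, hV3] with x h1 h2
    rw [mem_inter_iff, h1, h2]
    constructor
    · rintro ⟨a, b⟩ u (hu | hu)
      · exact a u hu
      · exact b u hu
    · intro h
      exact ⟨fun u hu => h u (Or.inl hu), fun u hu => h u (Or.inr hu)⟩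

theorem CoConvex.iInter {κ : Type*} [Finite κ] {F : κ → Set E} (h : ∀ i, CoConvex (F i)) :
    CoConvex (⋂ i, F i) := by
  intro z hz
  have hz' := mem_iInter.1 hz
  choose U hU1 hU2 hU3 using fun i => h i z (hz' i)
  refine ⟨⋃ i, U i, finite_iUnion hU1, ?_, ?_⟩
  · intro u hu
    obtain ⟨i, hi⟩ := mem_iUnion.1 hu
    exact hU2 i u hi
  · filter_upwards [eventually_all.2 hU3] with x hx
    rw [mem_iInter]
    constructor
    · intro h1 u hu
      obtain ⟨i, hi⟩ := mem_iUnion.1 hu
      exact (hx i).1 (h1 i) u hi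
    · intro h1 i
      exact (hx i).2 fun u hu => h1 u (mem_iUnion.2 ⟨i, hu⟩)

theorem CoConvex.preimage {E' : Type*} [TopologicalSpace E'] [AddCommGroup E'] [Module ℝ E']
    {F : Set E} (hF : CoConvex F) (f : E' →ᵃ[ℝ] E) (hf : Continuous f) : CoConvex (f ⁻¹' F) := by
  intro z hz
  obtain ⟨U, hU1, hU2, hU3⟩ := hF (f z) hz
  refine ⟨(fun u => f ⁻¹' u) '' U, hU1.image _, ?_, ?_⟩
  · rintro _ ⟨u, hu, rfl⟩
    exact ⟨(hU2 u hu).1.preimage hf, (hU2 u hu).2.affine_preimage f⟩
  · filter_upwards [hf.continuousAt.eventually hU3] with x hx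
    rw [mem_preimage, hx]
    simp

end basic

section main

variable {ι : Type*} [Fintype ι]

theorem coConvex_hyper (i : ι) (r : ℝ) : CoConvex {x : ι → ℝ | x i = r} := by
  have h : {x : ι → ℝ | x i = r} = {x : ι → ℝ | x i < r}ᶜ ∩ {x : ι → ℝ | r < x i}ᶜ := by
    ext x
    simp only [mem_ofPred_eq, mem_inter_iff, mem_compl_iff, not_lt]
    constructor
    · intro h; exact ⟨h.ge, h.le⟩
    · rintro ⟨h1, h2⟩; exact le_antisymm h2 h1
  rw [h]
  have hl : IsLinearMap ℝ (fun x : ι → ℝ => x i) := ⟨fun _ _ => rfl, fun _ _ => rfl⟩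
  exact (CoConvex.compl (isOpen_lt (continuous_apply i) continuous_const)
    (convex_halfSpace_lt hl r)).inter
    (CoConvex.compl (isOpen_lt continuous_const (continuous_apply i)) (convex_halfSpace_gt hl r))

/-- points of `F` near `z` can be moved away from `z` to the boundary of a cube -/
theorem outward {F : Set (ι → ℝ)} (hF : CoConvex F) {z : ι → ℝ} (hz : z ∈ F) :
    ∃ ρ > 0, ∀ w ∈ F, w ≠ z → dist w z ≤ ρ → ∃ t : ℝ, 1 ≤ t ∧
      (∃ i, |AffineMap.lineMap z w t i - z i| = ρ ∧ w i ≠ z i) ∧
      ∀ s ∈ Icc 1 t, AffineMap.lineMap z w s ∈ F := by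
  obtain ⟨U, hU1, hU2, hU3⟩ := hF z hz
  have h4 : ∀ᶠ x in 𝓝 z, ∀ u ∈ U, z ∉ closure u → x ∉ u := by
    rw [eventually_all_finite hU1]
    intro u _
    by_cases h : z ∈ closure u
    · exact Eventually.of_forall fun x hx => absurd h hx
    · filter_upwards [isClosed_closure.isOpen_compl.mem_nhds h] with x hx _ hxu
      exact hx (subset_closure hxu)
  obtain ⟨ρ, hρ, H⟩ := nhds_basis_closedBall.eventually_iff.1 (hU3.and h4)
  refine ⟨ρ, hρ, fun w hw hne hd => ?_⟩
  have hr : 0 < dist w z := dist_pos.2 hne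
  have hone : 1 ≤ ρ / dist w z := (one_le_div hr).2 hd
  refine ⟨ρ / dist w z, hone, ?_, ?_⟩
  · obtain ⟨i, hi⟩ : ∃ i, dist (w i) (z i) = dist w z := by
      by_contra hcon
      push Not at hcon
      exact lt_irrefl _ ((dist_pi_lt_iff hr).2 fun i =>
        lt_of_le_of_ne (dist_le_pi_dist w z i) (hcon i))
    refine ⟨i, ?_, ?_⟩
    · have : AffineMap.lineMap z w (ρ / dist w z) i - z i = ρ / dist w z * (w i - z i) := by
        simp [AffineMap.lineMap_apply]
      rw [this, abs_mul, ← Real.dist_eq, hi, abs_of_pos (div_pos hρ hr), div_mul_cancel₀ _ hr.ne']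
    · intro h
      rw [h, dist_self] at hi
      exact hr.ne hi
  · rintro s ⟨hs1, hs2⟩
    have hs0 : 0 < s := by linarith
    have hpd : dist (AffineMap.lineMap z w s) z ≤ ρ := by
      rw [dist_lineMap_left, Real.norm_eq_abs, abs_of_pos hs0, dist_comm z w]
      calc s * dist w z ≤ ρ / dist w z * dist w z := by gcongr
        _ = ρ := div_mul_cancel₀ _ hr.ne'
    by_contra hp
    have h5 := H (mem_closedBall.2 hpd)
    have h6 : ¬ ∀ u ∈ U, AffineMap.lineMap z w s ∉ u := fun h => hp (h5.1.2 h)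
    push Not at h6
    obtain ⟨u, hu, hpu⟩ := h6
    have hzc : z ∈ closure u := by
      by_contra h
      exact h5.2 u hu h hpu
    have hwu : w ∉ u := (H (mem_closedBall.2 hd)).1.1 hw u hu
    rcases eq_or_lt_of_le hs1 with h1 | h1
    · rw [← h1, AffineMap.lineMap_apply_one] at hpu
      exact hwu hpu
    · apply hwu
      have h7 := (hU2 u hu).2.openSegment_closure_interior_subset_interior hzc
        (by rwa [(hU2 u hu).1.interior_eq] : AffineMap.lineMap z w s ∈ interior u)
      rw [(hU2 u hu).1.interior_eq] at h7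
      apply h7
      rw [openSegment_eq_image_lineMap]
      refine ⟨s⁻¹, ⟨inv_pos.2 hs0, inv_lt_one_of_one_lt₀ h1⟩, ?_⟩
      rw [AffineMap.lineMap_lineMap_right, inv_mul_cancel₀ hs0.ne', AffineMap.lineMap_apply_one]

theorem segment_sub_of_outward {F : Set (ι → ℝ)} {z w : ι → ℝ} {t : ℝ} (ht : 1 ≤ t)
    (h : ∀ s ∈ Icc 1 t, AffineMap.lineMap z w s ∈ F) :
    segment ℝ w (AffineMap.lineMap z w t) ⊆ F := by
  have h1 : segment ℝ w (AffineMap.lineMap z w t)
      = (AffineMap.lineMap z w : ℝ →ᵃ[ℝ] (ι → ℝ)) '' (Icc 1 t) := by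
    rw [← segment_eq_Icc ht, image_segment, AffineMap.lineMap_apply_one]
  rw [h1]
  rintro _ ⟨s, hs, rfl⟩
  exact h s hs

/-- the part of `F` in a hyperplane -/
def slice (F : Set (ι → ℝ)) (i : ι) (r : ℝ) : Set (ι → ℝ) := F ∩ {x | x i = r}

theorem slice_compact {F : Set (ι → ℝ)} (hF : IsCompact F) (i : ι) (r : ℝ) :
    IsCompact (slice F i r) :=
  hF.inter_right (isClosed_eq (continuous_apply i) continuous_const)

theorem slice_coConvex {F : Set (ι → ℝ)} (hF : CoConvex F) (i : ι) (r : ℝ) :
    CoConvex (slice F i r) :=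
  hF.inter (coConvex_hyper i r)

theorem slice_free [DecidableEq ι] {F : Set (ι → ℝ)} {S : Finset ι} {a : ι → ℝ}
    (h : ∀ x ∈ F, ∀ i ∉ S, x i = a i) (i : ι) (r : ℝ) :
    ∀ x ∈ slice F i r, ∀ j ∉ S.erase i, x j = Function.update a i r j := by
  rintro x ⟨hx, hxi⟩ j hj
  by_cases hji : j = i
  · subst hji
    simpa using hxi
  · rw [Function.update_of_ne hji]
    exact h x hx j fun hjS => hj (Finset.mem_erase.2 ⟨hji, hjS⟩)

/-- a map which is constant on the segments in a compact set of this kind has finitely many values -/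
theorem finite_values_aux {α : Type*} (g : (ι → ℝ) → α) (S : Finset ι) :
    ∀ (F : Set (ι → ℝ)) (a : ι → ℝ), IsCompact F → CoConvex F → (∀ x ∈ F, ∀ i ∉ S, x i = a i) →
      (∀ x y, segment ℝ x y ⊆ F → g x = g y) → (g '' F).Finite := by
  classical
  induction S using Finset.strongInduction with
  | H S ih =>
    intro F a hF hc ha hg
    refine IsCompact.induction_on (p := fun t => (g '' t).Finite) hF (by simp)
      (fun s t hst ht => ht.subset (image_mono hst))
      (fun s t hs ht => by rw [image_union]; exact hs.union ht) ?_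
    intro z hz
    obtain ⟨ρ, hρ, H⟩ := outward hc hz
    refine ⟨F ∩ closedBall z ρ, inter_mem_nhdsWithin _ (closedBall_mem_nhds z hρ), ?_⟩
    have hfin : (({g z} : Set α) ∪ ⋃ i ∈ S, (g '' slice F i (z i + ρ) ∪
        g '' slice F i (z i - ρ))).Finite := by
      refine (finite_singleton _).union (S.finite_toSet.biUnion fun i hi => ?_)
      have hsl : ∀ r, (g '' slice F i r).Finite := fun r =>
        ih (S.erase i) (Finset.erase_ssubset hi) (slice F i r) (Function.update a i r)
          (slice_compact hF i r) (slice_coConvex hc i r) (slice_free ha i r)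
          (fun x y hxy => hg x y (hxy.trans inter_subset_left))
      exact (hsl _).union (hsl _)
    refine hfin.subset ?_
    rintro _ ⟨w, ⟨hw, hwb⟩, rfl⟩
    by_cases hne : w = z
    · left; simp [hne]
    · right
      obtain ⟨t, ht, ⟨i, hi1, hi2⟩, hseg⟩ := H w hw hne (mem_closedBall.1 hwb)
      have hiS : i ∈ S := by
        by_contra h
        exact hi2 (by rw [ha w hw i h, ha z hz i h])
      have hgw : g w = g (AffineMap.lineMap z w t) := hg _ _ (segment_sub_of_outward ht hseg)
      have hw' : AffineMap.lineMap z w t ∈ F := hseg t ⟨ht, le_rfl⟩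
      refine mem_biUnion hiS ?_
      rcases (abs_eq hρ.le).1 hi1 with h | h
      · left
        exact ⟨_, ⟨hw', by simp only [mem_ofPred_eq]; linarith⟩, hgw.symm⟩
      · right
        exact ⟨_, ⟨hw', by simp only [mem_ofPred_eq]; linarith⟩, hgw.symm⟩

end main

end Run7.h767.CX
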