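import Pool.Agent.Run7.h767.CX.Basic

/-!
# Affine images of co-convex sets on which a linear functional is injective
-/

set_option autoImplicit false

open Set Metric Filter Topology

namespace Run7.h767.CX

section corner

variable {V : Type*} [NormedAddCommGroup V] [NormedSpace ℝ V]

/-- the points of `R` which are not in the interior of a segment contained in `R` -/
def Corner (R : Set V) : Set V :=
  {y | y ∈ R ∧ ∀ p q, p ≠ q → segment ℝ p q ⊆ R → y ∉ openSegment ℝ p q}

theorem corner_mono {R R' : Set V} (h : R' ⊆ R) {y : V} (hy : y ∈ Corner R) (hy' : y ∈ R') :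
    y ∈ Corner R' :=
  ⟨hy', fun p q hpq hs => hy.2 p q hpq (hs.trans h)⟩

theorem par {R : Set V} {l : V →ₗ[ℝ] ℝ} (hl : InjOn l R) {a c e d : V} (hac : a ≠ c)
    (hs : segment ℝ a c ⊆ R) {s0 : ℝ} (h0 : 0 < s0) (h1 : s0 < 1)
    (he : e = AffineMap.lineMap a c s0) {r : ℝ} (hr : 0 < r)
    (hd : ∀ ε ∈ Icc 0 r, e - ε • d ∈ R) : ∃ k : ℝ, d = k • (c - a) := by
  have hla : l (c - a) ≠ 0 := by
    intro h
    rw [map_sub, sub_eq_zero] at h
    exact hac (hl (hs (left_mem_segment ℝ a c)) (hs (right_mem_segment ℝ a c)) h.symm)
  set k := l d / l (c - a) with hk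
  obtain ⟨ε, hε0, hε1, hε2, hε3⟩ : ∃ ε : ℝ, 0 < ε ∧ ε ≤ r ∧ ε * |k| ≤ s0 ∧ ε * |k| ≤ 1 - s0 := by
    have hm : 0 < min s0 (1 - s0) := lt_min h0 (by linarith)
    refine ⟨min r (min s0 (1 - s0) / (|k| + 1)), lt_min hr (by positivity), min_le_left _ _, ?_, ?_⟩
    · calc min r (min s0 (1 - s0) / (|k| + 1)) * |k| ≤ min s0 (1 - s0) / (|k| + 1) * (|k| + 1) := by
            gcongr
            · exact min_le_right _ _
            · linarith
        _ = min s0 (1 - s0) := div_mul_cancel₀ _ (by positivity)
        _ ≤ s0 := min_le_left _ _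
    · calc min r (min s0 (1 - s0) / (|k| + 1)) * |k| ≤ min s0 (1 - s0) / (|k| + 1) * (|k| + 1) := by
            gcongr
            · exact min_le_right _ _
            · linarith
        _ = min s0 (1 - s0) := div_mul_cancel₀ _ (by positivity)
        _ ≤ 1 - s0 := min_le_right _ _
  refine ⟨k, ?_⟩
  have hab := abs_le.1 (show |ε * k| ≤ s0 by rw [abs_mul, abs_of_pos hε0]; exact hε2)
  have hab' := abs_le.1 (show |ε * k| ≤ 1 - s0 by rw [abs_mul, abs_of_pos hε0]; exact hε3)
  have h2 : e - (ε * k) • (c - a) ∈ R := by
    apply hs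
    rw [segment_eq_image_lineMap]
    refine ⟨s0 - ε * k, ⟨by linarith [hab.2], by linarith [hab'.1]⟩, ?_⟩
    rw [he, AffineMap.lineMap_apply, AffineMap.lineMap_apply]
    simp only [vsub_eq_sub, vadd_eq_add, sub_smul]
    abel
  have h3 := hl (hd ε ⟨hε0.le, hε1⟩) h2 (by
    simp only [map_sub, map_smul, smul_eq_mul]
    have : ε * k * (l c - l a) = ε * l d := by
      rw [hk, map_sub]
      rw [map_sub] at hla
      field_simp
    rw [this])
  have h4 : ε • d = ε • (k • (c - a)) := by
    rw [smul_smul]
    exact sub_right_injective h3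
  exact smul_right_injective V hε0.ne' h4

/-- a segment in a compact set can be prolonged until a corner -/
theorem exists_corner {R : Set V} (hR : IsCompact R) {l : V →ₗ[ℝ] ℝ} (hl : InjOn l R) {p q : V}
    (hpq : p ≠ q) (hs : segment ℝ p q ⊆ R) :
    ∃ t : ℝ, 1 ≤ t ∧ AffineMap.lineMap p q t ∈ Corner R ∧
      ∀ s ∈ Icc 0 t, AffineMap.lineMap p q s ∈ R := by
  set T : Set ℝ := {t | 1 ≤ t ∧ ∀ s ∈ Icc 0 t, AffineMap.lineMap p q s ∈ R} with hT
  have h1T : (1 : ℝ) ∈ T := by
    refine ⟨le_rfl, fun s hs' => hs ?_⟩
    rw [segment_eq_image_lineMap]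
    exact ⟨s, hs', rfl⟩
  have hd : 0 < dist p q := dist_pos.2 hpq
  obtain ⟨M, hM⟩ := hR.isBounded.subset_closedBall p
  have hbdd : BddAbove T := by
    refine ⟨M / dist p q, fun t ht => ?_⟩
    have h := mem_closedBall.1 (hM (ht.2 t ⟨by linarith [ht.1], le_rfl⟩))
    rw [dist_lineMap_left, Real.norm_eq_abs, abs_of_pos (by linarith [ht.1])] at h
    exact (le_div_iff₀ hd).2 h
  set t := sSup T with ht
  have h1t : 1 ≤ t := le_csSup hbdd h1T
  have hcont : Continuous fun s : ℝ => (AffineMap.lineMap p q s : V) := AffineMap.lineMap_continuous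
  have hIco : Ico 0 t ⊆ {s | (AffineMap.lineMap p q s : V) ∈ R} := by
    rintro s ⟨hs0, hst⟩
    obtain ⟨t', ht', hst'⟩ := exists_lt_of_lt_csSup ⟨1, h1T⟩ hst
    exact ht'.2 s ⟨hs0, hst'.le⟩
  have hIcc : ∀ s ∈ Icc 0 t, AffineMap.lineMap p q s ∈ R := by
    have hcl : IsClosed {s | (AffineMap.lineMap p q s : V) ∈ R} := hR.isClosed.preimage hcont
    have := hcl.closure_subset_iff.2 hIco
    rw [closure_Ico (by linarith : (0 : ℝ) ≠ t)] at this
    exact this
  refine ⟨t, h1t, ⟨hIcc t ⟨by linarith, le_rfl⟩, ?_⟩, hIcc⟩
  intro a c hac hsac hmem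
  rw [openSegment_eq_image_lineMap] at hmem
  obtain ⟨s0, ⟨hs0, hs1⟩, he⟩ := hmem
  obtain ⟨k, hk⟩ := par hl hac hsac hs0 hs1 he.symm (show (0 : ℝ) < t by linarith) (d := q - p) (by
    rintro ε ⟨hε0, hε1⟩
    have : (AffineMap.lineMap p q t : V) - ε • (q - p) = AffineMap.lineMap p q (t - ε) := by
      rw [AffineMap.lineMap_apply, AffineMap.lineMap_apply]
      simp only [vsub_eq_sub, vadd_eq_add, sub_smul]
      abel
    rw [this]
    exact hIcc _ ⟨by linarith, by linarith⟩)
  obtain ⟨η, hη0, hη2, hη3⟩ : ∃ η : ℝ, 0 < η ∧ η * |k| ≤ s0 ∧ η * |k| ≤ 1 - s0 := by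
    have hm : 0 < min s0 (1 - s0) := lt_min hs0 (by linarith)
    refine ⟨min s0 (1 - s0) / (|k| + 1), by positivity, ?_, ?_⟩
    · calc min s0 (1 - s0) / (|k| + 1) * |k| ≤ min s0 (1 - s0) / (|k| + 1) * (|k| + 1) := by
            gcongr; linarith
        _ = min s0 (1 - s0) := div_mul_cancel₀ _ (by positivity)
        _ ≤ s0 := min_le_left _ _
    · calc min s0 (1 - s0) / (|k| + 1) * |k| ≤ min s0 (1 - s0) / (|k| + 1) * (|k| + 1) := by
            gcongr; linarith
        _ = min s0 (1 - s0) := div_mul_cancel₀ _ (by positivity)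
        _ ≤ 1 - s0 := min_le_right _ _
  have hmem : t + η ∈ T := by
    refine ⟨by linarith, fun s hs' => ?_⟩
    by_cases hst : s ≤ t
    · exact hIcc s ⟨hs'.1, hst⟩
    · push Not at hst
      have hε0 : 0 ≤ s - t := by linarith
      have hε1 : s - t ≤ η := by linarith [hs'.2]
      have hab : |(s - t) * k| ≤ η * |k| := by
        rw [abs_mul, abs_of_nonneg hε0]
        gcongr
      have h1 := abs_le.1 (hab.trans hη2)
      have h2 := abs_le.1 (hab.trans hη3)
      have : (AffineMap.lineMap p q s : V) = AffineMap.lineMap a c (s0 + (s - t) * k) := by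
        have h3 : (AffineMap.lineMap p q s : V) = AffineMap.lineMap p q t + (s - t) • (q - p) := by
          rw [AffineMap.lineMap_apply, AffineMap.lineMap_apply]
          simp only [vsub_eq_sub, vadd_eq_add, sub_smul]
          abel
        rw [h3, ← he, hk, AffineMap.lineMap_apply, AffineMap.lineMap_apply, smul_smul]
        simp only [vsub_eq_sub, vadd_eq_add, add_smul]
        abel
      rw [this]
      apply hsac
      rw [segment_eq_image_lineMap]
      exact ⟨_, ⟨by linarith [h1.1], by linarith [h2.2]⟩, rfl⟩
  have := le_csSup hbdd hmem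
  linarith

/-- a compact set with finitely many corners on which a linear functional is injective is a finite
union of segments -/
theorem segments_of_corner {R : Set V} (hR : IsCompact R) {l : V →ₗ[ℝ] ℝ} (hl : InjOn l R)
    (hc : (Corner R).Finite) :
    ∃ T : Set (V × V), T.Finite ∧ R = ⋃ t ∈ T, segment ℝ t.1 t.2 := by
  refine ⟨{t | t ∈ Corner R ×ˢ Corner R ∧ segment ℝ t.1 t.2 ⊆ R},
    (hc.prod hc).subset fun t ht => ht.1, subset_antisymm ?_ ?_⟩
  · intro y hy
    by_cases hyc : y ∈ Corner R
    · refine mem_biUnion (x := (y, y)) ⟨⟨hyc, hyc⟩, ?_⟩ ?_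
      · simpa [segment_same] using hy
      · simp [segment_same]
    · have : ∃ p q, p ≠ q ∧ segment ℝ p q ⊆ R ∧ y ∈ openSegment ℝ p q := by
        by_contra hcon
        push Not at hcon
        exact hyc ⟨hy, hcon⟩
      obtain ⟨p, q, hpq, hs, hym⟩ := this
      rw [openSegment_eq_image_lineMap] at hym
      obtain ⟨s0, ⟨hs0, hs1⟩, rfl⟩ := hym
      set y : V := AffineMap.lineMap p q s0 with hydef
      have hq : q - y = (1 - s0) • (q - p) := by
        rw [hydef, AffineMap.lineMap_apply]
        simp only [vsub_eq_sub, vadd_eq_add, sub_smul, one_smul]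
        abel
      have hp : p - y = (-s0) • (q - p) := by
        rw [hydef, AffineMap.lineMap_apply]
        simp only [vsub_eq_sub, vadd_eq_add, neg_smul]
        abel
      have hqp : q - p ≠ 0 := sub_ne_zero.2 hpq.symm
      have hyq : y ≠ q := by
        intro h
        rw [← h, sub_self] at hq
        rw [h] at hp
        have h1 : (0 : V) = (1 - s0) • (q - p) := by
          rw [h] at hq; simpa using hq
        rcases smul_eq_zero.1 h1.symm with h2 | h2
        · linarith
        · exact hqp h2
      have hyp : y ≠ p := by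
        intro h
        have h1 : (0 : V) = (-s0) • (q - p) := by rw [← hp, h, sub_self]
        rcases smul_eq_zero.1 h1.symm with h2 | h2
        · linarith
        · exact hqp h2
      have hysegq : segment ℝ y q ⊆ R := by
        refine Subset.trans ?_ hs
        refine (convex_segment p q).segment_subset ?_ (right_mem_segment ℝ p q)
        rw [segment_eq_image_lineMap]
        exact ⟨s0, ⟨hs0.le, hs1.le⟩, rfl⟩
      have hysegp : segment ℝ y p ⊆ R := by
        refine Subset.trans ?_ hs
        refine (convex_segment p q).segment_subset ?_ (left_mem_segment ℝ p q)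
        rw [segment_eq_image_lineMap]
        exact ⟨s0, ⟨hs0.le, hs1.le⟩, rfl⟩
      obtain ⟨t1, ht1, he1, hR1⟩ := exists_corner hR hl hyq hysegq
      obtain ⟨t2, ht2, he2, hR2⟩ := exists_corner hR hl hyp hysegp
      set e1 : V := AffineMap.lineMap y q t1 with he1def
      set e2 : V := AffineMap.lineMap y p t2 with he2def
      have hy1 : e1 = y + (t1 * (1 - s0)) • (q - p) := by
        rw [he1def, AffineMap.lineMap_apply]
        simp only [vsub_eq_sub, vadd_eq_add]
        rw [hq, smul_smul, add_comm]
      have hy2 : e2 = y - (t2 * s0) • (q - p) := by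
        rw [he2def, AffineMap.lineMap_apply]
        simp only [vsub_eq_sub, vadd_eq_add]
        rw [hp, smul_smul, mul_neg, neg_smul]
        abel
      set A := t1 * (1 - s0) with hA
      set B := t2 * s0 with hB
      have hA0 : 0 < A := mul_pos (by linarith) (by linarith)
      have hB0 : 0 < B := mul_pos (by linarith) hs0
      have hyseg : y ∈ segment ℝ e2 e1 := by
        rw [segment_eq_image_lineMap]
        refine ⟨B / (A + B), ⟨by positivity, (div_le_one (by positivity)).2 (by linarith)⟩, ?_⟩
        rw [AffineMap.lineMap_apply]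
        simp only [vsub_eq_sub, vadd_eq_add]
        have : e1 - e2 = (A + B) • (q - p) := by
          rw [hy1, hy2, add_smul]; abel
        rw [this, smul_smul, div_mul_cancel₀ _ (by positivity), hy2]
        abel
      have hsub : segment ℝ e2 e1 ⊆ R := by
        have h1 : segment ℝ y e1 ⊆ R := by
          have : segment ℝ y e1 = (AffineMap.lineMap y q : ℝ →ᵃ[ℝ] V) '' (Icc 0 t1) := by
            rw [← segment_eq_Icc (by linarith : (0 : ℝ) ≤ t1), image_segment,
              AffineMap.lineMap_apply_zero]
          rw [this]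
          rintro _ ⟨s, hs', rfl⟩
          exact hR1 s hs'
        have h2 : segment ℝ y e2 ⊆ R := by
          have : segment ℝ y e2 = (AffineMap.lineMap y p : ℝ →ᵃ[ℝ] V) '' (Icc 0 t2) := by
            rw [← segment_eq_Icc (by linarith : (0 : ℝ) ≤ t2), image_segment,
              AffineMap.lineMap_apply_zero]
          rw [this]
          rintro _ ⟨s, hs', rfl⟩
          exact hR2 s hs'
        intro x hx
        rw [segment_eq_image_lineMap] at hx
        obtain ⟨s, ⟨hs0', hs1'⟩, rfl⟩ := hx
        have hx : (AffineMap.lineMap e2 e1 s : V) = y + (s * (A + B) - B) • (q - p) := by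
          rw [AffineMap.lineMap_apply]
          simp only [vsub_eq_sub, vadd_eq_add]
          have : e1 - e2 = (A + B) • (q - p) := by
            rw [hy1, hy2, add_smul]; abel
          rw [this, smul_smul, hy2, sub_smul]
          abel
        rw [hx]
        rcases le_total 0 (s * (A + B) - B) with h | h
        · apply h1
          rw [segment_eq_image_lineMap]
          refine ⟨(s * (A + B) - B) / A, ⟨by positivity, (div_le_one hA0).2 (by nlinarith)⟩, ?_⟩
          rw [AffineMap.lineMap_apply]
          simp only [vsub_eq_sub, vadd_eq_add]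
          rw [hy1, add_sub_cancel_left, smul_smul, div_mul_cancel₀ _ hA0.ne', add_comm]
        · apply h2
          rw [segment_eq_image_lineMap]
          refine ⟨-(s * (A + B) - B) / B, ⟨div_nonneg (by linarith) hB0.le,
            (div_le_one hB0).2 (by nlinarith)⟩, ?_⟩
          rw [AffineMap.lineMap_apply]
          simp only [vsub_eq_sub, vadd_eq_add]
          have h5 : e2 - y = (-B) • (q - p) := by rw [hy2, neg_smul]; abel
          rw [h5, smul_smul, add_comm]
          congr 2
          field_simp
      exact mem_biUnion (x := (e2, e1)) ⟨⟨he2, he1⟩, hsub⟩ hyseg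
  · intro y hy
    simp only [mem_iUnion] at hy
    obtain ⟨t, ht, hyt⟩ := hy
    exact ht.2 hyt

end corner

section main

variable {ι : Type*} [Fintype ι] {V : Type*} [NormedAddCommGroup V] [NormedSpace ℝ V]

theorem corner_finite_aux (L : (ι → ℝ) →ᵃ[ℝ] V) (hL : Continuous L) (l : V →ₗ[ℝ] ℝ) (S : Finset ι) :
    ∀ (F : Set (ι → ℝ)) (a : ι → ℝ), IsCompact F → CoConvex F → (∀ x ∈ F, ∀ i ∉ S, x i = a i) →
      InjOn l (L '' F) → (Corner (L '' F)).Finite := by
  classical
  induction S using Finset.strongInduction with
  | H S ih =>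
    intro F a hF hc ha hl
    set R := L '' F with hRdef
    have key : (Corner R ∩ L '' F).Finite := by
      refine IsCompact.induction_on (p := fun t => (Corner R ∩ L '' t).Finite) hF (by simp)
        (fun s t hst ht => ht.subset (inter_subset_inter_right _ (image_mono hst)))
        (fun s t hs ht => by
          rw [image_union, inter_union_distrib_left]; exact hs.union ht) ?_
      intro z hz
      obtain ⟨ρ, hρ, H⟩ := outward hc hz
      refine ⟨F ∩ closedBall z ρ, inter_mem_nhdsWithin _ (closedBall_mem_nhds z hρ), ?_⟩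
      -- the corners of the slices
      set D : Set V := ⋃ i ∈ S, (Corner (L '' slice F i (z i + ρ)) ∪
        Corner (L '' slice F i (z i - ρ))) with hD
      have hDfin : D.Finite := by
        refine S.finite_toSet.biUnion fun i hi => ?_
        have hsl : ∀ r, (Corner (L '' slice F i r)).Finite := fun r =>
          ih (S.erase i) (Finset.erase_ssubset hi) (slice F i r) (Function.update a i r)
            (slice_compact hF i r) (slice_coConvex hc i r) (slice_free ha i r)
            (hl.mono (image_mono inter_subset_left))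
        exact (hsl _).union (hsl _)
      set Y : V → Set V := fun e => {y | y ∈ Corner R ∧ y ∈ segment ℝ (L z) e ∧ y ≠ e ∧
        segment ℝ y e ⊆ R} with hY
      have hYsub : ∀ e, (Y e).Subsingleton := by
        have aux : ∀ e, ∀ s1 s2 : ℝ, 0 ≤ s1 → s1 < s2 → s2 < 1 →
            AffineMap.lineMap (L z) e s1 ∈ Y e → AffineMap.lineMap (L z) e s2 ∈ Y e → False := by
          intro e s1 s2 h1 h12 h2 hy1 hy2
          refine hy2.1.2 _ _ hy1.2.2.1 hy1.2.2.2 ?_
          rw [openSegment_eq_image_lineMap]
          refine ⟨(s2 - s1) / (1 - s1), ⟨div_pos (by linarith) (by linarith),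
            (div_lt_one (by linarith)).2 (by linarith)⟩, ?_⟩
          simp only [AffineMap.lineMap_apply, vsub_eq_sub, vadd_eq_add]
          have h3 : e - (s1 • (e - L z) + L z) = (1 - s1) • (e - L z) := by
            rw [sub_smul, one_smul]; abel
          rw [h3, smul_smul, div_mul_cancel₀ _ (by linarith : (1 - s1) ≠ 0), sub_smul]
          abel
        intro e y1 hy1 y2 hy2
        have h1 := hy1.2.1
        have h2 := hy2.2.1
        rw [segment_eq_image_lineMap] at h1 h2
        obtain ⟨s1, ⟨h10, h11⟩, rfl⟩ := h1
        obtain ⟨s2, ⟨h20, h21⟩, rfl⟩ := h2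
        have h11' : s1 < 1 := lt_of_le_of_ne h11 fun h => hy1.2.2.1 (by
          rw [h, AffineMap.lineMap_apply_one])
        have h21' : s2 < 1 := lt_of_le_of_ne h21 fun h => hy2.2.2.1 (by
          rw [h, AffineMap.lineMap_apply_one])
        rcases lt_trichotomy s1 s2 with h | h | h
        · exact (aux e s1 s2 h10 h h21' hy1 hy2).elim
        · rw [h]
        · exact (aux e s2 s1 h20 h h11' hy2 hy1).elim
      have hfin : (({L z} : Set V) ∪ (D ∪ ⋃ e ∈ D, Y e)).Finite :=
        (finite_singleton _).union (hDfin.union (hDfin.biUnion fun e _ => (hYsub e).finite))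
      refine hfin.subset ?_
      rintro y ⟨hyc, w, ⟨hw, hwb⟩, rfl⟩
      by_cases hne : w = z
      · left; simp [hne]
      right
      obtain ⟨t, ht, ⟨i, hi1, hi2⟩, hseg⟩ := H w hw hne (mem_closedBall.1 hwb)
      have hiS : i ∈ S := by
        by_contra h
        exact hi2 (by rw [ha w hw i h, ha z hz i h])
      have hsegF : segment ℝ w (AffineMap.lineMap z w t) ⊆ F := segment_sub_of_outward ht hseg
      have hw' : AffineMap.lineMap z w t ∈ F := hseg t ⟨ht, le_rfl⟩
      set w' := (AffineMap.lineMap z w t : ι → ℝ) with hw'def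
      -- the slice of `w'`
      obtain ⟨F', hF'F, hF'c, hw'F', hF'D, -⟩ : ∃ F' : Set (ι → ℝ), F' ⊆ F ∧ IsCompact F' ∧
          w' ∈ F' ∧ Corner (L '' F') ⊆ D ∧ True := by
        rcases (abs_eq hρ.le).1 hi1 with h | h
        · refine ⟨slice F i (z i + ρ), inter_subset_left, slice_compact hF _ _,
            ⟨hw', by simp only [mem_ofPred_eq]; linarith⟩, fun e he => ?_, trivial⟩
          exact mem_biUnion hiS (Or.inl he)
        · refine ⟨slice F i (z i - ρ), inter_subset_left, slice_compact hF _ _,
            ⟨hw', by simp only [mem_ofPred_eq]; linarith⟩, fun e he => ?_, trivial⟩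
          exact mem_biUnion hiS (Or.inr he)
      have hR' : L '' F' ⊆ R := image_mono hF'F
      have hR'c : IsCompact (L '' F') := hF'c.image hL
      have hl' : InjOn l (L '' F') := hl.mono hR'
      have hbR' : L w' ∈ L '' F' := mem_image_of_mem _ hw'F'
      have hLw' : L w' = AffineMap.lineMap (L z) (L w) t := by
        rw [hw'def, AffineMap.apply_lineMap]
      have hsegR : segment ℝ (L w) (L w') ⊆ R := by
        rw [← image_segment]
        exact image_mono hsegF
      by_cases hyb : L w = L w'
      · left
        apply hF'D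
        rw [hyb] at hyc ⊢
        exact corner_mono hR' hyc hbR'
      right
      have hδ : L w' - L w = (t - 1) • (L w - L z) := by
        rw [hLw', AffineMap.lineMap_apply, sub_smul, one_smul]
        simp only [vsub_eq_sub, vadd_eq_add]
        abel
      have hδ0 : L w' - L w ≠ 0 := sub_ne_zero.2 (Ne.symm hyb)
      have ht1 : 1 < t := by
        refine lt_of_le_of_ne ht fun h => hδ0 ?_
        rw [hδ, ← h, sub_self, zero_smul]
      -- it suffices to find a corner beyond `L w'`
      suffices hsuf : ∃ e ∈ Corner (L '' F'), ∃ c : ℝ, 0 ≤ c ∧ e = L w' + c • (L w' - L w) ∧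
          segment ℝ (L w') e ⊆ R by
        obtain ⟨e, he, c, hc0, hec, hes⟩ := hsuf
        refine mem_biUnion (hF'D he) ⟨hyc, ?_, ?_, ?_⟩
        · rw [segment_eq_image_lineMap]
          have hpos : 0 < 1 + (1 + c) * (t - 1) := by nlinarith
          refine ⟨(1 + (1 + c) * (t - 1))⁻¹, ⟨by positivity, inv_le_one_of_one_le₀ (by nlinarith)⟩,
            ?_⟩
          rw [AffineMap.lineMap_apply]
          simp only [vsub_eq_sub, vadd_eq_add]
          have h3 : e - L z = (1 + (1 + c) * (t - 1)) • (L w - L z) := by
            have h4 : L w' = L w + (t - 1) • (L w - L z) := by rw [← hδ]; abel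
            rw [hec, hδ, h4, smul_smul, add_smul, one_smul, add_mul, one_mul, add_smul]
            abel
          rw [h3, smul_smul, inv_mul_cancel₀ hpos.ne', one_smul]
          abel
        · intro h
          have h3 : (1 + c) • (L w' - L w) = 0 := by
            have : e - L w = (1 + c) • (L w' - L w) := by
              rw [hec, add_smul, one_smul]; abel
            rw [← this, ← h, sub_self]
          rcases smul_eq_zero.1 h3 with h4 | h4
          · linarith
          · exact hδ0 h4
        · intro x hx
          rw [segment_eq_image_lineMap] at hx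
          obtain ⟨s, ⟨hs0, hs1⟩, rfl⟩ := hx
          have h3 : (AffineMap.lineMap (L w) e s : V) = L w + (s * (1 + c)) • (L w' - L w) := by
            rw [AffineMap.lineMap_apply]
            simp only [vsub_eq_sub, vadd_eq_add]
            have : e - L w = (1 + c) • (L w' - L w) := by
              rw [hec, add_smul, one_smul]; abel
            rw [this, smul_smul, add_comm]
          rw [h3]
          rcases le_total (s * (1 + c)) 1 with h4 | h4
          · apply hsegR
            rw [segment_eq_image_lineMap]
            refine ⟨s * (1 + c), ⟨by positivity, h4⟩, ?_⟩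
            rw [AffineMap.lineMap_apply]
            simp only [vsub_eq_sub, vadd_eq_add]
            rw [add_comm]
          · apply hes
            rcases hc0.eq_or_lt with h5 | h5
            · rw [← h5, add_zero, mul_one] at h4 ⊢
              have : s = 1 := le_antisymm hs1 h4
              rw [this, one_smul, add_sub_cancel]
              exact left_mem_segment ℝ _ _
            · rw [segment_eq_image_lineMap]
              refine ⟨(s * (1 + c) - 1) / c, ⟨div_nonneg (by linarith) h5.le,
                (div_le_one h5).2 (by nlinarith)⟩, ?_⟩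
              rw [AffineMap.lineMap_apply, hec]
              simp only [vsub_eq_sub, vadd_eq_add]
              rw [add_sub_cancel_left, smul_smul, div_mul_cancel₀ _ h5.ne', sub_smul, one_smul]
              abel
      by_cases hb : L w' ∈ Corner (L '' F')
      · exact ⟨L w', hb, 0, le_rfl, by simp, by
          rw [segment_same]; exact singleton_subset_iff.2 (hR' hbR')⟩
      · have : ∃ p q, p ≠ q ∧ segment ℝ p q ⊆ L '' F' ∧ L w' ∈ openSegment ℝ p q := by
          by_contra hcon
          push Not at hcon
          exact hb ⟨hbR', hcon⟩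
        obtain ⟨p, q, hpq, hs, hbm⟩ := this
        have hbm' := hbm
        rw [openSegment_eq_image_lineMap] at hbm'
        obtain ⟨s0, ⟨hs0, hs1⟩, hbe⟩ := hbm'
        obtain ⟨k, hk⟩ := par hl hpq (hs.trans hR') hs0 hs1 hbe.symm one_pos (d := L w' - L w) (by
          rintro ε ⟨hε0, hε1⟩
          apply hsegR
          rw [segment_eq_image_lineMap]
          refine ⟨1 - ε, ⟨by linarith, by linarith⟩, ?_⟩
          rw [AffineMap.lineMap_apply, sub_smul, one_smul]
          simp only [vsub_eq_sub, vadd_eq_add]
          abel)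
        have hk0 : k ≠ 0 := by
          rintro rfl
          rw [zero_smul] at hk
          exact hδ0 hk
        -- the end point on the far side
        obtain ⟨q', hq'R, c, hc0, hq'⟩ : ∃ q', q' ∈ segment ℝ p q ∧ ∃ c : ℝ, 0 < c ∧
            q' = L w' + c • (L w' - L w) := by
          have hq1 : q - L w' = (1 - s0) • (q - p) := by
            rw [← hbe, AffineMap.lineMap_apply]
            simp only [vsub_eq_sub, vadd_eq_add, sub_smul, one_smul]
            abel
          have hp1 : p - L w' = (-s0) • (q - p) := by
            rw [← hbe, AffineMap.lineMap_apply]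
            simp only [vsub_eq_sub, vadd_eq_add, neg_smul]
            abel
          rcases lt_or_gt_of_ne hk0 with hneg | hpos
          · refine ⟨p, left_mem_segment ℝ p q, -s0 / k,
              div_pos_of_neg_of_neg (by linarith) hneg, ?_⟩
            rw [hk, smul_smul, div_mul_cancel₀ _ hk0, ← hp1]
            abel
          · refine ⟨q, right_mem_segment ℝ p q, (1 - s0) / k, div_pos (by linarith) hpos, ?_⟩
            rw [hk, smul_smul, div_mul_cancel₀ _ hk0, ← hq1]
            abel
        have hbq' : L w' ≠ q' := by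
          intro h
          have h3 : c • (L w' - L w) = 0 := by
            have := hq'
            rw [← h] at this
            simpa using this.symm
          rcases smul_eq_zero.1 h3 with h4 | h4
          · linarith
          · exact hδ0 h4
        have hs' : segment ℝ (L w') q' ⊆ L '' F' :=
          ((convex_segment p q).segment_subset (openSegment_subset_segment ℝ p q hbm) hq'R).trans hs
        obtain ⟨t', ht', he', hR''⟩ := exists_corner hR'c hl' hbq' hs'
        refine ⟨_, he', t' * c, by positivity, ?_, ?_⟩
        · rw [AffineMap.lineMap_apply]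
          simp only [vsub_eq_sub, vadd_eq_add]
          rw [hq', add_sub_cancel_left, smul_smul, add_comm]
        · have : segment ℝ (L w') (AffineMap.lineMap (L w') q' t')
              = (AffineMap.lineMap (L w') q' : ℝ →ᵃ[ℝ] V) '' (Icc 0 t') := by
            rw [← segment_eq_Icc (by linarith : (0 : ℝ) ≤ t'), image_segment,
              AffineMap.lineMap_apply_zero]
          rw [this]
          rintro _ ⟨s, hs'', rfl⟩
          exact hR' (hR'' s hs'')
    exact key.subset fun y hy => ⟨hy, hy.1⟩

end main

end Run7.h767.CX
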