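import Pool.Agent.Run7.h767.CX.Corner

/-!
# Packings of translates of convex bodies in a polygon
-/

set_option autoImplicit false

open Set Metric Filter Topology
open scoped Pointwise

namespace Run7.h767.CX

section transfer

variable {X : Type*} [NormedAddCommGroup X] [NormedSpace ℝ X] [FiniteDimensional ℝ X]

theorem finite_values {α : Type*} (g : X → α) {F : Set X} (hF : IsCompact F) (hc : CoConvex F)
    (hg : ∀ x y, segment ℝ x y ⊆ F → g x = g y) : (g '' F).Finite := by
  set e := (Module.finBasis ℝ X).equivFunL with he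
  set f : (Fin (Module.finrank ℝ X) → ℝ) →ᵃ[ℝ] X :=
    (e.symm : (Fin (Module.finrank ℝ X) → ℝ) →ₗ[ℝ] X).toAffineMap with hf
  have hfe : ∀ x, f x = e.symm x := fun x => rfl
  have hfc : Continuous f := e.symm.continuous
  have hF' : IsCompact (f ⁻¹' F) := by
    have : f ⁻¹' F = e '' F := by
      ext x
      constructor
      · intro hx
        exact ⟨e.symm x, hx, e.apply_symm_apply x⟩
      · rintro ⟨y, hy, rfl⟩
        change e.symm (e y) ∈ F
        rwa [e.symm_apply_apply]
    rw [this]
    exact hF.image e.continuous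
  have h := finite_values_aux (g ∘ f) Finset.univ (f ⁻¹' F) 0 hF' (hc.preimage f hfc)
    (fun x _ i hi => absurd (Finset.mem_univ i) hi) (fun x y hxy => hg (f x) (f y) (by
      rw [← image_segment]
      exact image_subset_iff.2 hxy))
  refine h.subset ?_
  rintro _ ⟨x, hx, rfl⟩
  exact ⟨e x, by change e.symm (e x) ∈ F; rwa [e.symm_apply_apply], by
    change g (e.symm (e x)) = g x; rw [e.symm_apply_apply]⟩

theorem corner_finite {V : Type*} [NormedAddCommGroup V] [NormedSpace ℝ V] (L : X →ᵃ[ℝ] V)
    (l : V →ₗ[ℝ] ℝ) {F : Set X} (hF : IsCompact F) (hc : CoConvex F) (hl : InjOn l (L '' F)) :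
    (Corner (L '' F)).Finite := by
  set e := (Module.finBasis ℝ X).equivFunL with he
  set f : (Fin (Module.finrank ℝ X) → ℝ) →ᵃ[ℝ] X :=
    (e.symm : (Fin (Module.finrank ℝ X) → ℝ) →ₗ[ℝ] X).toAffineMap with hf
  have hfc : Continuous f := e.symm.continuous
  have hfF : f '' (f ⁻¹' F) = F := by
    apply image_preimage_eq
    intro x
    exact ⟨e x, e.symm_apply_apply x⟩
  have hF' : IsCompact (f ⁻¹' F) := by
    have : f ⁻¹' F = e '' F := by
      ext x
      constructor
      · intro hx
        exact ⟨e.symm x, hx, e.apply_symm_apply x⟩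
      · rintro ⟨y, hy, rfl⟩
        change e.symm (e y) ∈ F
        rwa [e.symm_apply_apply]
    rw [this]
    exact hF.image e.continuous
  have hLF : (L.comp f) '' (f ⁻¹' F) = L '' F := by
    rw [AffineMap.coe_comp, image_comp, hfF]
  have hL : Continuous L := AffineMap.continuous_of_finiteDimensional L
  have h := corner_finite_aux (L.comp f) (hL.comp hfc) l Finset.univ (f ⁻¹' F) 0 hF'
    (hc.preimage f hfc) (fun x _ i hi => absurd (Finset.mem_univ i) hi) (by rw [hLF]; exact hl)
  rwa [hLF] at h

theorem affine_segments {V : Type*} [NormedAddCommGroup V] [NormedSpace ℝ V] (L : X →ᵃ[ℝ] V)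
    (l : V →ₗ[ℝ] ℝ) {F : Set X} (hF : IsCompact F) (hc : CoConvex F) (hl : InjOn l (L '' F)) :
    ∃ T : Set (V × V), T.Finite ∧ L '' F = ⋃ t ∈ T, segment ℝ t.1 t.2 :=
  segments_of_corner (hF.image (AffineMap.continuous_of_finiteDimensional L)) hl
    (corner_finite L l hF hc hl)

end transfer

section packing

variable {E : Type*} [NormedAddCommGroup E] [NormedSpace ℝ E]

/-- `Packings C K` is the set of all tuples `c` of vectors for which the translates `c i + K i` are
contained in `C` and have pairwise disjoint interiors. -/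
def Packings {m : ℕ} (C : Set E) (K : Fin m → Set E) : Set (Fin m → E) :=
  {c | (∀ i, ∀ x ∈ K i, c i + x ∈ C) ∧
    ∀ i j, i ≠ j → ∀ x ∈ interior (K i), ∀ y ∈ interior (K j), c i + x ≠ c j + y}

theorem interior_translate {C K : Set E} {c : E} (h : ∀ x ∈ K, c + x ∈ C) :
    ∀ x ∈ interior K, c + x ∈ interior C := by
  intro x hx
  have h1 : (fun y => c + y) '' interior K ⊆ interior C := by
    apply interior_maximal
    · rintro _ ⟨y, hy, rfl⟩
      exact h y (interior_subset hy)
    · exact (Homeomorph.addLeft c).isOpenMap _ isOpen_interior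
  exact h1 ⟨x, hx, rfl⟩

theorem coConvex_inside {C : Set E} (hC : IsClosed C) {B : Set (Set E)} (hB : B.Finite)
    (hBc : ∀ e ∈ B, Convex ℝ e) (hfr : frontier C = ⋃₀ B) {K : Set E} (hK : Convex ℝ K)
    (hKi : (interior K).Nonempty) : CoConvex {c : E | ∀ x ∈ K, c + x ∈ C} := by
  intro z hz
  obtain ⟨x0, hx0⟩ := hKi
  refine ⟨(fun e => e - interior K) '' B, hB.image _, ?_, ?_⟩
  · rintro _ ⟨e, he, rfl⟩
    exact ⟨isOpen_interior.sub_left, (hBc e he).sub hK.interior⟩
  · have h1 : ∀ᶠ c in 𝓝 z, c + x0 ∈ interior C := by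
      have h2 : z + x0 ∈ interior C := interior_translate hz x0 hx0
      exact (continuous_id.add continuous_const).continuousAt.eventually
        (isOpen_interior.mem_nhds h2)
    filter_upwards [h1] with c hc
    constructor
    · rintro hcK _ ⟨e, he, rfl⟩ hce
      obtain ⟨y, hy, x, hx, hyx⟩ := hce
      have h2 : c + x ∈ interior C := interior_translate hcK x hx
      have h3 : c + x = y := by
        have h5 : y - x = c := hyx
        rw [← h5, sub_add_cancel]
      have h4 : c + x ∈ frontier C := by
        rw [hfr, h3]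
        exact ⟨e, he, hy⟩
      exact h4.2 h2
    · intro hU
      have hpre : IsPreconnected ((fun x => c + x) '' interior K) :=
        hK.interior.isPreconnected.image _ (by fun_prop)
      have hsub : (fun x => c + x) '' interior K ⊆ interior C := by
        refine hpre.subset_left_of_subset_union isOpen_interior hC.isOpen_compl ?_ ?_ ?_
        · exact disjoint_compl_right.mono_left interior_subset
        · rintro _ ⟨x, hx, rfl⟩
          by_contra hcon
          simp only [mem_union, mem_compl_iff, not_or, not_not] at hcon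
          have h4 : c + x ∈ frontier C := ⟨subset_closure hcon.2, hcon.1⟩
          rw [hfr] at h4
          obtain ⟨e, he, hxe⟩ := h4
          exact hU _ ⟨e, he, rfl⟩ ⟨c + x, hxe, x, hx, by simp⟩
        · exact ⟨c + x0, ⟨x0, hx0, rfl⟩, hc⟩
      have hcl : closure (interior K) ⊆ {x | c + x ∈ C} := by
        apply closure_minimal
        · intro x hx
          exact (interior_subset (hsub ⟨x, hx, rfl⟩ : c + x ∈ interior C) : c + x ∈ C)
        · exact hC.preimage (by fun_prop : Continuous fun x => c + x)
      intro x hx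
      apply hcl
      rw [hK.closure_interior_eq_closure_of_nonempty_interior ⟨x0, hx0⟩]
      exact subset_closure hx

theorem coConvex_packings {C : Set E} (hC : IsClosed C) {B : Set (Set E)} (hB : B.Finite)
    (hBc : ∀ e ∈ B, Convex ℝ e) (hfr : frontier C = ⋃₀ B) {m : ℕ} {K : Fin m → Set E}
    (hK : ∀ i, Convex ℝ (K i)) (hKi : ∀ i, (interior (K i)).Nonempty) :
    CoConvex (Packings C K) := by
  have h1 : Packings C K = (⋂ i, (LinearMap.proj i : (Fin m → E) →ₗ[ℝ] E).toAffineMap ⁻¹'
      {c : E | ∀ x ∈ K i, c + x ∈ C}) ∩ ⋂ p : {p : Fin m × Fin m // p.1 ≠ p.2},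
      (((LinearMap.proj p.1.1 : (Fin m → E) →ₗ[ℝ] E) - (LinearMap.proj p.1.2 : (Fin m → E) →ₗ[ℝ] E)) ⁻¹'
        (interior (K p.1.2) - interior (K p.1.1)))ᶜ := by
    ext c
    simp only [Packings, mem_ofPred_eq, mem_inter_iff, mem_iInter, mem_preimage, mem_compl_iff,
      LinearMap.coe_toAffineMap, LinearMap.proj_apply, LinearMap.sub_apply, Subtype.forall,
      Prod.forall]
    refine and_congr Iff.rfl ⟨?_, ?_⟩
    · rintro h i j hij ⟨y, hy, x, hx, hyx⟩
      refine h i j hij x hx y hy ?_
      have : c i - c j = y - x := hyx.symm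
      rw [sub_eq_sub_iff_add_eq_add] at this
      rw [this, add_comm]
    · intro h i j hij x hx y hy hxy
      refine h i j hij ⟨y, hy, x, hx, ?_⟩
      change y - x = c i - c j
      rw [sub_eq_sub_iff_add_eq_add, add_comm y, hxy.symm]
  rw [h1]
  refine CoConvex.inter (CoConvex.iInter fun i => ?_) (CoConvex.iInter fun p => ?_)
  · exact (coConvex_inside hC hB hBc hfr (hK i) (hKi i)).preimage _ (continuous_apply i)
  · refine CoConvex.compl ?_ ?_
    · refine (isOpen_interior.sub_left).preimage ?_
      exact (continuous_apply _).sub (continuous_apply _)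
    · exact ((hK _).interior.sub (hK _).interior).linear_preimage _

theorem coConvex_halfspaces {X : Type*} [NormedAddCommGroup X] [NormedSpace ℝ X]
    [FiniteDimensional ℝ X] {k : ℕ} (h : Fin k → (X →ᵃ[ℝ] ℝ)) :
    CoConvex {c : X | ∀ j, h j c ≤ 0} := by
  have h1 : {c : X | ∀ j, h j c ≤ 0} = ⋂ j, (h j ⁻¹' Ioi 0)ᶜ := by
    ext c
    simp
  rw [h1]
  refine CoConvex.iInter fun j => CoConvex.compl ?_ ?_
  · exact isOpen_Ioi.preimage (AffineMap.continuous_of_finiteDimensional (h j))
  · exact (convex_Ioi 0).affine_preimage (h j)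

theorem isCompact_packings [FiniteDimensional ℝ E] {C : Set E} (hC : IsCompact C) {m : ℕ}
    {K : Fin m → Set E} (hKi : ∀ i, (interior (K i)).Nonempty) : IsCompact (Packings C K) := by
  have : ProperSpace E := FiniteDimensional.proper_real E
  refine Metric.isCompact_of_isClosed_isBounded ?_ ?_
  · have h1 : Packings C K = (⋂ i, ⋂ x ∈ K i, (fun c : Fin m → E => c i + x) ⁻¹' C) ∩
        ⋂ i, ⋂ j, ⋂ _ : i ≠ j, ((fun c : Fin m → E => c i - c j) ⁻¹'
          (interior (K j) - interior (K i)))ᶜ := by
      ext c
      simp only [Packings, mem_ofPred_eq, mem_inter_iff, mem_iInter, mem_preimage, mem_compl_iff]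
      refine and_congr Iff.rfl ⟨?_, ?_⟩
      · rintro h i j hij ⟨y, hy, x, hx, hyx⟩
        refine h i j hij x hx y hy ?_
        have : c i - c j = y - x := hyx.symm
        rw [sub_eq_sub_iff_add_eq_add] at this
        rw [this, add_comm]
      · intro h i j hij x hx y hy hxy
        refine h i j hij ⟨y, hy, x, hx, ?_⟩
        change y - x = c i - c j
        rw [sub_eq_sub_iff_add_eq_add, add_comm y, hxy.symm]
    rw [h1]
    refine IsClosed.inter (isClosed_iInter fun i => isClosed_biInter fun x _ =>
      hC.isClosed.preimage (by fun_prop)) ?_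
    refine isClosed_iInter fun i => isClosed_iInter fun j => isClosed_iInter fun _ => ?_
    exact ((isOpen_interior.sub_left).preimage (by fun_prop)).isClosed_compl
  · rw [← Bornology.forall_isBounded_image_eval_iff]
    intro i
    obtain ⟨x0, hx0⟩ := hKi i
    have h2 : Function.eval i '' Packings C K ⊆ (fun y => y - x0) '' C := by
      rintro _ ⟨c, hc, rfl⟩
      exact ⟨c i + x0, hc.1 i x0 (interior_subset hx0), by simp⟩
    exact (hC.image (by fun_prop : Continuous fun y : E => y - x0)).isBounded.subset h2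

end packing

end Run7.h767.CX
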